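import Mathlib

namespace Pool.Agent.Results.MP_ecc06a_al.Neg

open Polynomial

/-- The intersection of all maximal subgroups containing `P` (the whole group if there is none). -/
def ceil {G : Type} [Group G] (P : Set G) : Subgroup G :=
  sInf {M : Subgroup G | IsCoatom M ∧ P ⊆ M}

/-- The least size of a set `Q` such that `S ∪ Q` generates the group. -/
noncomputable def deficiency {G : Type} [Group G] (S : Set G) : ℕ :=
  sInf {n : ℕ | ∃ Q : Finset G, Q.card = n ∧ Subgroup.closure (S ∪ (Q : Set G)) = ⊤}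

/-- The class `X_L` is an option of the class `X_I`: some nonterminal position `P` in `X_I` has an
option `P ∪ {g}` in `X_L`. -/
def IsOption {G : Type} [Group G] (I L : Subgroup G) : Prop :=
  ∃ (P : Set G) (g : G), g ∉ P ∧ Subgroup.closure P ≠ ⊤ ∧ ceil P = I ∧ ceil (insert g P) = L

theorem subset_ceil {G : Type} [Group G] (P : Set G) : P ⊆ ceil P := by
  intro x hx
  simp only [ceil, SetLike.mem_coe, Subgroup.mem_sInf]
  intro M hM
  exact hM.2 hx

theorem ceil_le {G : Type} [Group G] {P : Set G} {M : Subgroup G} (h : IsCoatom M) (hP : P ⊆ M) :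
    ceil P ≤ M := sInf_le ⟨h, hP⟩

theorem ceil_gen {G : Type} [Group G] [Finite G] (S T : Set G)
    (h : Subgroup.closure ((ceil S : Set G) ∪ T) = ⊤) : Subgroup.closure (S ∪ T) = ⊤ := by
  rcases eq_top_or_exists_le_coatom (Subgroup.closure (S ∪ T)) with h1 | ⟨M, hM, hle⟩
  · exact h1
  · exfalso
    have hs : S ∪ T ⊆ M := (Subgroup.closure_le M).1 hle
    have h2 : ceil S ≤ M := ceil_le hM (fun x hx => hs (Or.inl hx))
    have h3 : Subgroup.closure ((ceil S : Set G) ∪ T) ≤ M := by
      rw [Subgroup.closure_le]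
      rintro x (hx | hx)
      · exact h2 hx
      · exact hs (Or.inr hx)
    rw [h] at h3
    exact hM.1 (top_le_iff.1 h3)

noncomputable def q : (ZMod 2)[X] := (X ^ 6 + X ^ 3 + 1 : (ZMod 2)[X]).factor

instance : Fact (Irreducible q) := ⟨irreducible_factor _⟩

abbrev F := AdjoinRoot q

noncomputable def z : F := AdjoinRoot.root q

theorem hz : z ^ 6 + z ^ 3 + 1 = 0 := by
  have hd : (X ^ 6 + X ^ 3 + 1 : (ZMod 2)[X]).natDegree = 6 := by compute_degree!
  have h : q ∣ (X ^ 6 + X ^ 3 + 1 : (ZMod 2)[X]) :=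
    factor_dvd_of_natDegree_ne_zero (by rw [hd]; decide)
  have h2 := (AdjoinRoot.mk_eq_zero (f := q)).2 h
  simpa [z] using h2

theorem two0 : (2 : F) = 0 := by
  have h := map_ofNat (algebraMap (ZMod 2) F) 2
  rw [← h]
  have h2 : (OfNat.ofNat 2 : ZMod 2) = 0 := rfl
  rw [h2, map_zero]

instance : Finite F :=
  haveI : Module.Finite (ZMod 2) F :=
    (AdjoinRoot.powerBasis (irreducible_factor _ : Irreducible q).ne_zero).finite
  Module.finite_of_finite (ZMod 2)

theorem hgen (W : AddSubgroup F) (hW : ∀ x ∈ W, z * x ∈ W) (x : F) (hx : x ∈ W) (h0 : x ≠ 0)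
    (y : F) : y ∈ W := by
  have key : ∀ p : F, ∀ x ∈ W, p * x ∈ W := by
    intro p
    induction p using AdjoinRoot.induction_on with
    | ih p =>
      induction p using Polynomial.induction_on with
      | C a =>
        intro x hx
        have ha : a = 0 ∨ a = 1 := by revert a; decide
        rcases ha with rfl | rfl
        · simp
        · simpa using hx
      | add p r hp hr =>
        intro x hx
        rw [map_add, add_mul]
        exact W.add_mem (hp x hx) (hr x hx)
      | monomial n a hp =>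
        intro x hx
        rw [pow_succ, ← mul_assoc, map_mul, AdjoinRoot.mk_X, mul_assoc]
        exact hp _ (hW x hx)
  have := key (y * x⁻¹) x hx
  rwa [mul_assoc, inv_mul_cancel₀ h0, mul_one] at this

theorem z9 : z ^ 9 = 1 := by
  have : z ^ 9 - 1 = (z ^ 3 - 1) * (z ^ 6 + z ^ 3 + 1) := by ring
  rw [hz, mul_zero] at this
  exact sub_eq_zero.1 this

theorem z3 : z ^ 3 ≠ 1 := by
  intro h
  have h1 := hz
  have h6 : z ^ 6 = 1 := by
    have : z ^ 6 = (z ^ 3) ^ 2 := by ring
    rw [this, h, one_pow]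
  rw [h6, h] at h1
  have h2 := two0
  have : (1 : F) = 0 := by linear_combination h1 - h2
  exact one_ne_zero this

noncomputable def e (x : ZMod 9) : F := z ^ x.val

theorem e_add (x y : ZMod 9) : e (x + y) = e x * e y := by
  unfold e
  rw [ZMod.val_add, ← pow_eq_pow_mod _ z9, pow_add]

theorem e0 : e 0 = 1 := by simp [e]

theorem e_one {x : ZMod 9} (h : e x = 1) : x = 0 := by
  haveI : Fact (Nat.Prime 3) := ⟨by norm_num⟩
  have ho : orderOf z = 3 ^ (1 + 1) :=
    orderOf_eq_prime_pow (by simpa using z3) (by simpa using z9)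
  have hd := orderOf_dvd_of_pow_eq_one h
  rw [ho] at hd
  have hl : x.val < 9 := ZMod.val_lt x
  have : x.val = 0 := by
    obtain ⟨c, hc⟩ := hd
    omega
  exact (ZMod.val_eq_zero x).1 this

theorem e_ne (x : ZMod 9) : e x ≠ 0 := by
  intro h
  have := e_add x (-x)
  rw [h, zero_mul, add_neg_cancel, e0] at this
  exact one_ne_zero this

def tri (i : Fin 3) : ZMod 9 := 3 * (i.val : ZMod 9)

theorem tri_add : ∀ i j : Fin 3, tri (i + j) = tri i + tri j := by decide
theorem tri_neg : ∀ i : Fin 3, tri (-i) = - tri i := by decide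
theorem tri0 : tri 0 = 0 := by decide

theorem shift (g : Fin 3 → ZMod 9) (i : Fin 3) :
    g (0 - i) + g (1 - i) + g (2 - i) = g 0 + g 1 + g 2 := by
  have h := Equiv.sum_comp (Equiv.subRight i) g
  simpa [Fin.sum_univ_three] using h

@[ext] structure G where
  v : Fin 3 → F
  f : Fin 3 → ZMod 9
  i : Fin 3
  h1 : ∀ j k, 3 * f j = 3 * f k
  h2 : f 0 + f 1 + f 2 = tri i

noncomputable instance : Mul G := ⟨fun x y =>
  ⟨fun j => x.v j + e (x.f j) * y.v (j - x.i), fun j => x.f j + y.f (j - x.i), x.i + y.i,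
    fun j k => by rw [mul_add, mul_add, x.h1 j k, y.h1 (j - x.i) (k - x.i)],
    by rw [tri_add, ← x.h2, ← y.h2, ← shift y.f x.i]; ring⟩⟩

noncomputable instance : One G := ⟨⟨0, 0, 0, fun _ _ => rfl, by decide⟩⟩

noncomputable instance : Inv G := ⟨fun x =>
  ⟨fun j => -(e (-x.f (j - -x.i)) * x.v (j - -x.i)), fun j => -x.f (j - -x.i), -x.i,
    fun j k => by rw [mul_neg, mul_neg, x.h1 (j - -x.i) (k - -x.i)],
    by rw [tri_neg, ← x.h2, ← shift x.f (-x.i)]; ring⟩⟩

theorem mul_v (x y : G) (j : Fin 3) : (x * y).v j = x.v j + e (x.f j) * y.v (j - x.i) := rfl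
theorem mul_f (x y : G) (j : Fin 3) : (x * y).f j = x.f j + y.f (j - x.i) := rfl
theorem mul_i (x y : G) : (x * y).i = x.i + y.i := rfl
theorem one_v (j : Fin 3) : (1 : G).v j = 0 := rfl
theorem one_f (j : Fin 3) : (1 : G).f j = 0 := rfl
theorem one_i : (1 : G).i = 0 := rfl
theorem inv_v (x : G) (j : Fin 3) :
    (x⁻¹).v j = -(e (-x.f (j - -x.i)) * x.v (j - -x.i)) := rfl
theorem inv_f (x : G) (j : Fin 3) : (x⁻¹).f j = -x.f (j - -x.i) := rfl
theorem inv_i (x : G) : (x⁻¹).i = -x.i := rfl

theorem gext {x y : G} (hv : ∀ j, x.v j = y.v j) (hf : ∀ j, x.f j = y.f j) (hi : x.i = y.i) :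
    x = y := G.ext (funext hv) (funext hf) hi

noncomputable instance : Group G := Group.ofLeftAxioms
  (fun x y w => gext
    (fun j => by simp only [mul_v, mul_f, mul_i, e_add, sub_add_eq_sub_sub]; ring)
    (fun j => by simp only [mul_f, mul_i, sub_add_eq_sub_sub]; ring)
    (by simp only [mul_i, add_assoc]))
  (fun x => gext
    (fun j => by simp only [mul_v, one_v, one_f, one_i, e0, sub_zero]; ring)
    (fun j => by simp only [mul_f, one_f, one_i, sub_zero]; ring)
    (by simp only [mul_i, one_i, zero_add]))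
  (fun x => gext
    (fun j => by simp only [mul_v, inv_v, inv_f, inv_i, one_v]; ring)
    (fun j => by simp only [mul_f, inv_f, inv_i, one_f]; ring)
    (by simp only [mul_i, inv_i, one_i, neg_add_cancel]))

instance : Finite G :=
  Finite.of_injective (fun x : G => (x.v, x.f, x.i)) (fun x y h => by
    simp only [Prod.mk.injEq] at h
    exact G.ext h.1 h.2.1 h.2.2)

def tr (v : Fin 3 → F) : G := ⟨v, 0, 0, fun _ _ => rfl, by decide⟩

theorem tr_v (v : Fin 3 → F) (j : Fin 3) : (tr v).v j = v j := rfl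
theorem tr_f (v : Fin 3 → F) (j : Fin 3) : (tr v).f j = 0 := rfl
theorem tr_i (v : Fin 3 → F) : (tr v).i = 0 := rfl

theorem tr_add (v w : Fin 3 → F) : tr (v + w) = tr v * tr w := gext
  (fun j => by simp only [mul_v, tr_v, tr_f, tr_i, e0, sub_zero, Pi.add_apply]; ring)
  (fun j => by simp only [mul_f, tr_f, add_zero])
  (by simp only [mul_i, tr_i, add_zero])

theorem tr_act (y : G) (v : Fin 3 → F) :
    tr (fun j => e (y.f j) * v (j - y.i)) = y * tr v * y⁻¹ := by
  rw [eq_mul_inv_iff_mul_eq]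
  exact gext
    (fun j => by simp only [mul_v, tr_v, tr_f, tr_i, e0, sub_zero]; ring)
    (fun j => by simp only [mul_f, tr_f, tr_i, sub_zero]; ring)
    (by simp only [mul_i, tr_i, add_zero, zero_add])

theorem e1 : e 1 = z := by
  have : (1 : ZMod 9).val = 1 := rfl
  simp only [e, this, pow_one]
theorem e3 : e 3 = z ^ 3 := rfl
theorem e6 : e 6 = z ^ 6 := rfl

theorem irr (K : Subgroup G) (hs : ∀ x : G, ∃ y ∈ K, y.f = x.f ∧ y.i = x.i)
    (v : Fin 3 → F) (hv : tr v ∈ K) (j0 : Fin 3) (h0 : v j0 ≠ 0) : K = ⊤ := by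
  have act : ∀ (x : G) (v : Fin 3 → F), tr v ∈ K →
      tr (fun j => e (x.f j) * v (j - x.i)) ∈ K := by
    intro x v hv
    obtain ⟨y, hy, hf, hi⟩ := hs x
    rw [← hf, ← hi, tr_act]
    exact K.mul_mem (K.mul_mem hy hv) (K.inv_mem hy)
  have add : ∀ v w : Fin 3 → F, tr v ∈ K → tr w ∈ K → tr (v + w) ∈ K := by
    intro v w hv hw
    rw [tr_add]
    exact K.mul_mem hv hw
  have sh : ∀ (i : Fin 3) (v : Fin 3 → F), tr v ∈ K →
      tr (fun j => e (i.val : ZMod 9) * v (j - i)) ∈ K := fun i v hv =>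
    act ⟨0, fun _ => (i.val : ZMod 9), i, fun _ _ => rfl, by unfold tri; ring⟩ v hv
  obtain ⟨u, hu, hu0⟩ : ∃ u : Fin 3 → F, tr u ∈ K ∧ u 0 ≠ 0 := by
    refine ⟨_, sh (-j0) v hv, ?_⟩
    simp only [sub_neg_eq_add, zero_add]
    exact mul_ne_zero (e_ne _) h0
  have hp : tr ![u 0, 0, 0] ∈ K := by
    have a1 := act ⟨0, ![0, 3, 6], 0, by decide, by decide⟩ u hu
    have a2 := act ⟨0, ![0, 6, 3], 0, by decide, by decide⟩ u hu
    have a3 := add _ _ (add _ _ hu a1) a2
    convert a3 using 2
    funext j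
    have h2 := two0
    have h6 := hz
    fin_cases j
    · simp [e0]
      linear_combination (u 0) * h2
    · simp [e3, e6]
      linear_combination (-u 1) * h6
    · simp [e3, e6]
      linear_combination (-u 2) * h6
  let W : AddSubgroup F :=
    { carrier := {x | tr ![x, 0, 0] ∈ K}
      add_mem' := fun {x y} hx hy => by
        have a := add _ _ hx hy
        simpa using a
      zero_mem' := by
        have : tr ![0, 0, 0] = 1 := gext (fun j => by fin_cases j <;> rfl) (fun _ => rfl) rfl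
        show tr ![0, 0, 0] ∈ K
        rw [this]
        exact K.one_mem
      neg_mem' := fun {x} hx => by
        have : -x = x := by linear_combination (-x) * two0
        rw [this]
        exact hx }
  have hW : ∀ y : F, tr ![y, 0, 0] ∈ K := by
    refine hgen W ?_ (u 0) hp hu0
    intro x hx
    have a1 := act ⟨0, ![1, 1, 7], 0, by decide, by decide⟩ _ hx
    show tr ![z * x, 0, 0] ∈ K
    convert a1 using 2
    funext j
    fin_cases j <;> simp [e1]
  have hall : ∀ w : Fin 3 → F, tr w ∈ K := by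
    intro w
    have a0 := hW (w 0)
    have a1 := sh 1 _ (hW ((e ((1 : Fin 3).val : ZMod 9))⁻¹ * w 1))
    have a2 := sh 2 _ (hW ((e ((2 : Fin 3).val : ZMod 9))⁻¹ * w 2))
    have a3 := add _ _ (add _ _ a0 a1) a2
    convert a3 using 2
    funext j
    simp only [Pi.add_apply]
    fin_cases j <;> simp [e_ne]
  rw [eq_top_iff]
  intro x _
  obtain ⟨y, hy, hf, hi⟩ := hs x
  have : x = tr (x.v - y.v) * y := gext
    (fun j => by simp only [mul_v, tr_v, tr_f, tr_i, e0, sub_zero, Pi.sub_apply]; ring)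
    (fun j => by simp only [mul_f, tr_f, tr_i, sub_zero, zero_add, hf])
    (by simp only [mul_i, tr_i, zero_add, hi])
  rw [this]
  exact K.mul_mem (hall _) hy

theorem notgen (g g' : G) (hi : g.i = 0) (hf : 3 * g.f 0 = 0) :
    Subgroup.closure ({g, g'} : Set G) ≠ ⊤ := by
  have hd : ∀ (i : Fin 3) (y : ZMod 9), ∃ α β : ZMod 9, α * tri i + β * (3 * y) = 0 ∧
      ¬ (α * tri 1 + β * (3 * 1) = 0 ∧ α * tri 0 + β * (3 * 1) = 0) := by decide +kernel
  obtain ⟨α, β, h1, h2⟩ := hd g'.i (g'.f 0)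
  let K : Subgroup G :=
    { carrier := {x | α * tri x.i + β * (3 * x.f 0) = 0}
      mul_mem' := fun {x y} hx hy => by
        simp only [Set.mem_setOf_eq] at hx hy ⊢
        rw [mul_i, mul_f, tri_add, mul_add 3, y.h1 (0 - x.i) 0]
        linear_combination hx + hy
      one_mem' := by
        simp only [Set.mem_setOf_eq, one_i, one_f, tri0]
        ring
      inv_mem' := fun {x} hx => by
        simp only [Set.mem_setOf_eq] at hx ⊢
        rw [inv_i, inv_f, tri_neg, mul_neg 3, x.h1 (0 - -x.i) 0]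
        linear_combination -hx }
  intro h
  have hle : Subgroup.closure ({g, g'} : Set G) ≤ K := by
    rw [Subgroup.closure_le]
    rintro x (rfl | rfl)
    · show α * tri x.i + β * (3 * x.f 0) = 0
      rw [hi, hf, tri0]
      ring
    · exact h1
  rw [h] at hle
  apply h2
  exact ⟨hle (Subgroup.mem_top (⟨0, fun _ => 1, 1, fun _ _ => rfl, by decide⟩ : G)),
    hle (Subgroup.mem_top (⟨0, ![1, 1, 7], 0, by decide, by decide⟩ : G))⟩

noncomputable def M (w : Fin 3 → F) : Subgroup G where
  carrier := {x | ∀ j, x.v j = w j - e (x.f j) * w (j - x.i)}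
  mul_mem' := fun {x y} hx hy j => by
    rw [mul_v, mul_f, mul_i, hx j, hy (j - x.i), e_add, sub_add_eq_sub_sub]
    ring
  one_mem' := fun j => by
    rw [one_v, one_f, one_i, e0, sub_zero]
    ring
  inv_mem' := fun {x} hx j => by
    have h := e_add (-x.f (j - -x.i)) (x.f (j - -x.i))
    rw [neg_add_cancel, e0] at h
    have hj : j - -x.i - x.i = j := by abel
    rw [inv_v, inv_f, inv_i, hx (j - -x.i), hj]
    linear_combination (-w j) * h

theorem M_lift (w : Fin 3 → F) (x : G) : ∃ y ∈ M w, y.f = x.f ∧ y.i = x.i :=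
  ⟨⟨fun j => w j - e (x.f j) * w (j - x.i), x.f, x.i, x.h1, x.h2⟩, fun _ => rfl, rfl, rfl⟩

theorem M_coatom (w : Fin 3 → F) : IsCoatom (M w) := by
  constructor
  · intro h
    have : tr (fun _ => 1) ∈ M w := by rw [h]; exact Subgroup.mem_top _
    have h0 := this 0
    rw [tr_v, tr_f, tr_i, e0, sub_zero, one_mul, sub_self] at h0
    exact one_ne_zero h0
  · intro K hK
    obtain ⟨x, hx, hxM⟩ := SetLike.exists_of_lt hK
    obtain ⟨y, hy, hf, hi⟩ := M_lift w x
    have hxy : tr (x.v - y.v) * y = x := gext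
      (fun j => by simp only [mul_v, tr_v, tr_f, tr_i, e0, sub_zero, Pi.sub_apply]; ring)
      (fun j => by simp only [mul_f, tr_f, tr_i, sub_zero, zero_add, hf])
      (by simp only [mul_i, tr_i, zero_add, hi])
    have ht : tr (x.v - y.v) ∈ K := by
      rw [eq_mul_inv_of_mul_eq hxy]
      exact K.mul_mem hx (K.inv_mem (hK.le hy))
    have hne : ∃ j, (x.v - y.v) j ≠ 0 := by
      by_contra hc
      push Not at hc
      apply hxM
      have : x = y := gext (fun j => sub_eq_zero.1 (hc j)) (fun j => by rw [hf]) hi.symm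
      rw [this]
      exact hy
    obtain ⟨j, hj⟩ := hne
    refine irr K (fun x => ?_) _ ht j hj
    obtain ⟨y, hy, h⟩ := M_lift w x
    exact ⟨y, hK.le hy, h⟩

theorem M_odd (w : Fin 3 → F) (L : Subgroup G) (hL : L ≤ M w) : ¬ Even (Nat.card L) := by
  intro h
  obtain ⟨x, hx⟩ := exists_prime_orderOf_dvd_card' 2 (even_iff_two_dvd.1 h)
  have h2 : (x : G) * x = 1 := by
    have := pow_orderOf_eq_one x
    rw [hx, pow_two] at this
    exact congrArg Subtype.val this
  have hi : (x : G).i = 0 := by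
    have h3 : (x : G).i + (x : G).i = 0 := congrArg G.i h2
    have : ∀ i : Fin 3, i + i = 0 → i = 0 := by decide
    exact this _ h3
  have hf : ∀ j, (x : G).f j = 0 := by
    intro j
    have h3 : ((x : G) * x).f j = (1 : G).f j := by rw [h2]
    rw [mul_f, hi, sub_zero, one_f] at h3
    have : ∀ y : ZMod 9, y + y = 0 → y = 0 := by decide
    exact this _ h3
  have h1 : (x : G) = 1 := gext
    (fun j => by rw [hL x.2 j, hf, hi, e0, sub_zero, one_v]; ring) hf hi
  have : x = 1 := Subtype.ext h1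
  rw [this, orderOf_one] at hx
  omega

theorem fpf (g : G) (h : ¬ (g.i = 0 ∧ 3 * g.f 0 = 0)) : ∃ w, g ∈ M w := by
  have hk : ∀ u : Fin 3 → F, (∀ j, u j = e (g.f j) * u (j - g.i)) → ∀ j, u j = 0 := by
    intro u hu j
    by_contra hj
    by_cases hi : g.i = 0
    · have h1 := hu j
      rw [hi, sub_zero] at h1
      have h2 : e (g.f j) = 1 := by
        apply mul_right_cancel₀ hj
        rw [one_mul, ← h1]
      apply h
      refine ⟨hi, ?_⟩
      rw [g.h1 0 j, e_one h2, mul_zero]
    · have h1 := hu j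
      have h2 := hu (j - g.i)
      have h3 := hu (j - g.i - g.i)
      have hj3 : ∀ j i : Fin 3, j - i - i - i = j := by decide
      rw [hj3] at h3
      have hs : ∀ (f : Fin 3 → ZMod 9) (j i : Fin 3), i ≠ 0 →
          f j + f (j - i) + f (j - i - i) = f 0 + f 1 + f 2 := by
        intro f j i hi
        have k : ∀ j i : Fin 3, i ≠ 0 → (j - i - i = 2 ∧ j - i = 1 ∧ j = 0) ∨
            (j - i - i = 1 ∧ j - i = 2 ∧ j = 0) ∨ (j - i - i = 2 ∧ j - i = 0 ∧ j = 1) ∨
            (j - i - i = 0 ∧ j - i = 2 ∧ j = 1) ∨ (j - i - i = 0 ∧ j - i = 1 ∧ j = 2) ∨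
            (j - i - i = 1 ∧ j - i = 0 ∧ j = 2) := by decide
        rcases k j i hi with h | h | h | h | h | h <;> rw [h.1, h.2.1, h.2.2] <;> ring
      have h4 : e (tri g.i) = 1 := by
        apply mul_right_cancel₀ hj
        rw [← g.h2, ← hs g.f j g.i hi, e_add, e_add, one_mul]
        conv_rhs => rw [h1, h2, h3]
        ring
      have h5 : ∀ i : Fin 3, tri i = 0 → i = 0 := by decide
      exact hi (h5 _ (e_one h4))
  have hinj : Function.Injective
      (fun w : Fin 3 → F => fun j => w j - e (g.f j) * w (j - g.i)) := by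
    intro w w' hw
    funext j
    refine sub_eq_zero.1 (hk (fun j => w j - w' j) (fun j => ?_) j)
    have := congrFun hw j
    simp only at this ⊢
    linear_combination this
  obtain ⟨w, hw⟩ := Finite.injective_iff_surjective.1 hinj g.v
  exact ⟨w, fun j => (congrFun hw j).symm⟩

noncomputable def a : G := ⟨0, fun _ => 1, 1, fun _ _ => rfl, by decide⟩
noncomputable def c : G := ⟨fun _ => 1, ![1, 1, 7], 0, by decide, by decide⟩

theorem gen : Subgroup.closure ({a, c} : Set G) = ⊤ := by
  set K := Subgroup.closure ({a, c} : Set G)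
  have ha : a ∈ K := Subgroup.subset_closure (by simp)
  have hc : c ∈ K := Subgroup.subset_closure (by simp)
  have hpow : ∀ y : G, y.i = 0 → ∀ n : ℕ, (y ^ n).i = 0 ∧ ∀ j, (y ^ n).f j = n * y.f j := by
    intro y hy n
    induction n with
    | zero => exact ⟨rfl, fun j => by rw [pow_zero, one_f]; simp⟩
    | succ n ih =>
      refine ⟨by rw [pow_succ, mul_i, ih.1, hy, add_zero], fun j => ?_⟩
      rw [pow_succ, mul_f, ih.1, ih.2, sub_zero]
      push_cast
      ring
  have hap : ∀ i : Fin 3, (a ^ i.val).i = i ∧ ∀ j, (a ^ i.val).f j = (i.val : ZMod 9) := by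
    intro i
    fin_cases i
    · exact ⟨rfl, fun _ => rfl⟩
    · exact ⟨rfl, fun _ => rfl⟩
    · exact ⟨rfl, fun _ => rfl⟩
  have hd : ∀ (x y w : ZMod 9) (i : Fin 3), 3 * x = 3 * y → x + y + w = tri i →
      ∃ n k : ZMod 9, x = n * 1 + k * 7 + i.val ∧ y = n * 1 + k * 1 + i.val ∧
        w = n * 7 + k * 1 + i.val := by decide +kernel
  have hdi : (a * c * a⁻¹).i = 0 := rfl
  have hdf : ∀ j, (a * c * a⁻¹).f j = ![7, 1, 1] j := by decide
  refine irr K (fun x => ?_) (fun j => (c * c * c * (a * a * a)⁻¹).v j) ?_ 0 ?_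
  · obtain ⟨n, k, h0, h1, h2⟩ := hd (x.f 0) (x.f 1) (x.f 2) x.i (x.h1 0 1) x.h2
    refine ⟨c ^ n.val * (a * c * a⁻¹) ^ k.val * a ^ x.i.val, ?_, ?_, ?_⟩
    · exact K.mul_mem (K.mul_mem (K.pow_mem hc _)
        (K.pow_mem (K.mul_mem (K.mul_mem ha hc) (K.inv_mem ha)) _)) (K.pow_mem ha _)
    · funext j
      rw [mul_f, mul_f, (hap _).2, (hpow c rfl _).2, (hpow _ hdi _).2, (hpow c rfl _).1,
        sub_zero, hdf, ZMod.natCast_zmod_val, ZMod.natCast_zmod_val]
      fin_cases j
      · exact h0.symm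
      · exact h1.symm
      · exact h2.symm
    · rw [mul_i, mul_i, (hap _).1, (hpow c rfl _).1, (hpow _ hdi _).1, zero_add, zero_add]
  · have : tr (fun j => (c * c * c * (a * a * a)⁻¹).v j) = c * c * c * (a * a * a)⁻¹ :=
      gext (fun _ => rfl) (by decide) (by decide)
    rw [this]
    exact K.mul_mem (K.mul_mem (K.mul_mem hc hc) hc)
      (K.inv_mem (K.mul_mem (K.mul_mem ha ha) ha))
  · have h1 : (c * c * c * (a * a * a)⁻¹).v 0 = 1 + z + z * z := by
      simp [mul_v, inv_v, mul_f, mul_i, a, c, e_add, e1]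
    show (c * c * c * (a * a * a)⁻¹).v 0 ≠ 0
    rw [h1]
    intro h
    apply z3
    linear_combination (z - 1) * h

theorem result : ∃ (G : Type) (_ : Group G) (_ : Finite G), Even (Nat.card G) ∧
    ∃ (k : ℕ) (P : Set G), Subgroup.closure P ≠ ⊤ ∧ Odd (Nat.card (ceil P)) ∧
      deficiency (ceil P : Set G) = k + 1 ∧
      ∀ L : Subgroup G, IsOption (ceil P) L →
        ¬ (Even (Nat.card L) ∧ deficiency (L : Set G) = k) := by
  classical
  have hone : ∀ g : G, Subgroup.closure ({1, g} : Set G) ≠ ⊤ :=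
    fun g => notgen 1 g rfl (by rw [one_f, mul_zero])
  refine ⟨G, inferInstance, inferInstance, ?_, 1, ∅, ?_, ?_, ?_, ?_⟩
  · have ht : orderOf (tr (fun _ => 1)) = 2 := by
      apply orderOf_eq_prime
      · rw [pow_two, ← tr_add]
        exact gext (fun j => by
          rw [tr_v, one_v, Pi.add_apply]; linear_combination two0) (fun _ => rfl) rfl
      · intro h
        have h0 : (tr (fun _ => 1)).v 0 = (1 : G).v 0 := by rw [h]
        exact one_ne_zero h0
    rw [even_iff_two_dvd, ← ht]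
    exact orderOf_dvd_natCard _
  · intro h
    apply hone 1
    rw [eq_top_iff, ← h]
    exact Subgroup.closure_mono (Set.empty_subset _)
  · exact Nat.not_even_iff_odd.1 (M_odd 0 _ (ceil_le (M_coatom 0) (Set.empty_subset _)))
  · have h2 : 2 ∈ {n : ℕ | ∃ Q : Finset G, Q.card = n ∧
        Subgroup.closure (((ceil (∅ : Set G) : Subgroup G) : Set G) ∪ (Q : Set G)) = ⊤} := by
      refine ⟨{a, c}, Finset.card_pair (fun h => ?_), ?_⟩
      · have : a.i = c.i := by rw [h]
        exact absurd this (by decide)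
      · rw [eq_top_iff, ← gen]
        apply Subgroup.closure_mono
        intro x hx
        right
        simpa using hx
    refine le_antisymm (Nat.sInf_le h2) (le_csInf ⟨2, h2⟩ ?_)
    rintro n ⟨Q, hQ, hc⟩
    by_contra hn
    obtain ⟨g, hg⟩ := Finset.card_le_one_iff_subset_singleton.1 (show Q.card ≤ 1 by omega)
    apply hone g
    rw [eq_top_iff, ← ceil_gen _ _ hc]
    apply Subgroup.closure_mono
    rintro x (hx | hx)
    · exact absurd hx (Set.notMem_empty x)
    · right
      simpa using hg hx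
  · rintro L ⟨P, g, -, -, hP, rfl⟩ ⟨hev, hd⟩
    have hsub : P ⊆ (ceil (∅ : Set G) : Subgroup G) := hP ▸ subset_ceil P
    have hm := Nat.sInf_mem (Nat.nonempty_of_sInf_eq_succ (k := 0) hd)
    unfold deficiency at hd
    rw [hd] at hm
    obtain ⟨Q, hQ, hc⟩ := hm
    obtain ⟨g', rfl⟩ := Finset.card_eq_one.1 hQ
    have h1 := ceil_gen _ _ hc
    have h2 : Subgroup.closure ((∅ : Set G) ∪ {g, g'}) = ⊤ := by
      apply ceil_gen
      rw [eq_top_iff, ← h1]
      apply Subgroup.closure_mono
      rintro x ((rfl | hx) | hx)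
      · exact Or.inr (Or.inl rfl)
      · exact Or.inl (hsub hx)
      · exact Or.inr (Or.inr (by simpa using hx))
    rw [Set.empty_union] at h2
    obtain ⟨w, hw⟩ := fpf g (fun h => notgen g g' h.1 h.2 h2)
    refine M_odd w _ (ceil_le (M_coatom w) ?_) hev
    rintro x (rfl | hx)
    · exact hw
    · exact ceil_le (M_coatom w) (Set.empty_subset _) (hsub hx)

end Pool.Agent.Results.MP_ecc06a_al.Neg
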